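import Pool.Agent.MP_a7b5fd_co.h11.Cls

/-! Choice of the parameters. -/

set_option autoImplicit false

namespace Pool.Agent.MP_a7b5fd_co.H11

open Real Pool.Agent.MP_a7b5fd_co.H39

lemma log_big {Δ : ℕ} (h : 2 ^ 100 ≤ Δ) : 69 ≤ log Δ ∧ 1 ≤ log (log Δ) := by
  have h1 : (2 : ℝ) ^ 100 ≤ Δ := by exact_mod_cast h
  have h2 := log_le_log (by positivity) h1
  rw [log_pow] at h2
  have h3 := log_two_gt_d9
  have h4 : 69 ≤ log Δ := by
    push_cast at h2
    linarith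
  refine ⟨h4, ?_⟩
  rw [le_log_iff_exp_le (by linarith)]
  linarith [exp_one_lt_d9]

/-- The short system for the labels of the distance-3 colouring. -/
lemma sys_short {Δ : ℕ} (h : 2 ^ 100 ≤ Δ) : ∃ N l g₁ b₁ : ℕ,
    Δ + Δ ^ 2 + Δ ^ 3 + 1 ≤ N ^ l ∧ Sys (Fin N) g₁ 2 b₁ ∧ Δ * 2 < g₁ ∧ b₁ ≤ 24 * Δ ∧
      (l : ℝ) ≤ 373 * log (log Δ) := by
  classical
  obtain ⟨hlΔ, hll⟩ := log_big h
  have h2 : 3 ^ 32 ≤ Δ := le_trans (by norm_num) h
  have hΔ0 : (3 : ℝ) ≤ Δ := by exact_mod_cast (by omega : 3 ≤ Δ)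
  have hl3 : 1 < log 3 := by
    rw [lt_log_iff_exp_lt (by norm_num)]
    linarith [exp_one_lt_d9]
  set w := Nat.findGreatest (fun w => (3 * w) ^ (32 * w) ≤ Δ) Δ with hw
  have hw1 : 1 ≤ w := Nat.le_findGreatest (by omega) (by simpa using h2)
  have hw3 : (3 * w) ^ (32 * w) ≤ Δ :=
    Nat.findGreatest_spec (P := fun w => (3 * w) ^ (32 * w) ≤ Δ) (m := 1) (by omega)
      (by simpa using h2)
  have hw0 : (1 : ℝ) ≤ w := by exact_mod_cast hw1
  have hw4 : 32 * (w : ℝ) ≤ log Δ := by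
    have e1 : ((3 * w : ℝ)) ^ (32 * w) ≤ Δ := by exact_mod_cast hw3
    have e2 := log_le_log (by positivity) e1
    rw [log_pow] at e2
    push_cast at e2
    have e3 : log 3 ≤ log (3 * w : ℝ) := log_le_log (by norm_num) (by linarith)
    nlinarith
  have hw5 : log Δ ≤ 64 * w * log (log Δ) := by
    have e0 : w + 1 ≤ Δ := by
      have e1 : log Δ ≤ Δ - 1 := log_le_sub_one_of_pos (by linarith)
      have e2 : (w : ℝ) + 1 ≤ Δ := by linarith
      exact_mod_cast e2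
    have e1 := Nat.findGreatest_is_greatest (P := fun w => (3 * w) ^ (32 * w) ≤ Δ)
      (Nat.lt_succ_self w) e0
    have e2 : (Δ : ℝ) ≤ (3 * (w + 1) : ℝ) ^ (32 * (w + 1)) := by exact_mod_cast (not_le.1 e1).le
    have e3 := log_le_log (by linarith) e2
    rw [log_pow] at e3
    push_cast at e3
    have e4 : log (3 * (w + 1) : ℝ) ≤ log (log Δ) := log_le_log (by positivity) (by linarith)
    have e5 : 32 * ((w : ℝ) + 1) * log (3 * (w + 1) : ℝ) ≤ 64 * w * log (log Δ) :=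
      mul_le_mul (by linarith) e4 (log_nonneg (by linarith)) (by positivity)
    exact e3.trans e5
  have hl2 := log_two_gt_d9
  have hpos : 0 < (w : ℝ) * log 2 := by positivity
  obtain ⟨l, hl⟩ : ∃ l, l = ⌊4 * log Δ / (w * log 2)⌋₊ + 1 := ⟨_, rfl⟩
  have hm1 : 4 * log Δ ≤ l * (w * log 2) := by
    rw [← div_le_iff₀ hpos, hl]
    push_cast
    exact (Nat.lt_floor_add_one _).le
  have hm2 : (l : ℝ) ≤ 4 * log Δ / (w * log 2) + 1 := by
    rw [hl]
    push_cast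
    linarith [Nat.floor_le (div_nonneg (by linarith : 0 ≤ 4 * log Δ) hpos.le)]
  have hN : 9 ≤ (3 * w) ^ (32 * w) :=
    le_trans (by norm_num) ((Nat.pow_le_pow_left (show 3 ≤ 3 * w by omega) 2).trans
      (Nat.pow_le_pow_right (by omega) (by omega)))
  have hS := sys_rs (2 ^ w) w 1 hw1 (by simp)
  generalize (3 * w) ^ (32 * w) = N at hN hw3 hS
  refine ⟨2 ^ w, l, _, _, ?_, Sys.copies hS (2 * Δ / (N / 3) + 1), ?_, ?_, hm2.trans ?_⟩
  · refine le_trans (show _ ≤ Δ ^ 4 by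
      have e1 : Δ ≤ Δ ^ 3 := Nat.le_self_pow (by norm_num) _
      have e2 : Δ ^ 2 ≤ Δ ^ 3 := Nat.pow_le_pow_right (by omega) (by norm_num)
      have e3 : 4 * Δ ^ 3 ≤ Δ * Δ ^ 3 := Nat.mul_le_mul_right _ (by omega)
      have e4 : Δ ^ 4 = Δ * Δ ^ 3 := by ring
      omega) (le_pow_of_log (Nat.one_le_pow _ _ (by omega)) (Nat.one_le_pow _ _ (by omega)) ?_)
    push_cast
    rw [log_pow, log_pow]
    push_cast
    exact hm1
  · have := Nat.lt_div_mul_add (a := 2 * Δ) (b := N / 3) (by omega)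
    rw [add_mul]
    omega
  · have e1 := Nat.div_mul_le_self (2 * Δ) (N / 3)
    calc (2 * Δ / (N / 3) + 1) * (1 * (2 * N)) ≤ (2 * Δ / (N / 3) + 1) * (8 * (N / 3)) :=
          Nat.mul_le_mul_left _ (by omega)
      _ = 8 * (2 * Δ / (N / 3) * (N / 3) + N / 3) := by ring
      _ ≤ 24 * Δ := by omega
  · have e1 : 4 * log Δ / (w * log 2) ≤ 372 * log (log Δ) := by
      rw [div_le_iff₀ hpos]
      have := mul_le_mul_of_nonneg_left hl2.le (by positivity : 0 ≤ w * log (log Δ))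
      nlinarith
    linarith

/-- The long system for the labels of all vertices. -/
lemma sys_long {n Δ : ℕ} (h : 2 ^ 100 ≤ Δ) (hn : Δ < n) (hc : log n / log Δ ≤ log Δ) :
    ∃ g a b : ℕ, 0 < g ∧ Sys (Fin n) g a b ∧ ((Δ * a + (Δ / g + 1) * b : ℕ) : ℝ) ≤
      8320 * Δ * (20 * (log n / log Δ * (log (log Δ) / log (1 + log n / log Δ))) +
        2 ^ 40 * (log n / log Δ)) := by
  obtain ⟨hlΔ, hll⟩ := log_big h
  have hΔ0 : (2 : ℝ) ^ 100 ≤ Δ := by exact_mod_cast h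
  have hn' : (Δ : ℝ) < n := by exact_mod_cast hn
  have hΔp : (0 : ℝ) < Δ := lt_of_lt_of_le (by positivity) hΔ0
  have hln : 0 ≤ log n := log_natCast_nonneg n
  have hq : 1 ≤ log n / log Δ := (one_le_div (by linarith)).2 (log_le_log hΔp hn'.le)
  obtain ⟨c, hc'⟩ : ∃ c, c = log n / log Δ := ⟨_, rfl⟩
  have hcn : log n = c * log Δ := by rw [hc', div_mul_cancel₀ _ (by linarith)]
  rw [← hc'] at hq hc ⊢
  obtain ⟨j, -, r1, r2⟩ := exists_switch (fun j => 1024 * c < ((j + 2 : ℕ) : ℝ) ^ 10)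
    ⌈1024 * c⌉₊ (by norm_num; linarith) (by
      refine lt_of_lt_of_le ?_ (le_self_pow₀ (by exact_mod_cast (by omega)) (by norm_num))
      push_cast
      linarith [Nat.le_ceil (1024 * c)])
  obtain ⟨r, hr⟩ : ∃ r, r = j + 2 := ⟨_, rfl⟩
  rw [not_lt, ← hr] at r1
  rw [show j + 1 + 2 = r + 1 by omega] at r2
  have hr1 : 0 < r := by omega
  have hr0 : (2 : ℝ) ≤ r := by exact_mod_cast (by omega : 2 ≤ r)
  have hlr : 0 < log r := log_pos (by linarith)
  have r3 : log (1 + c) ≤ 20 * log r := by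
    have b1 : ((r + 1 : ℕ) : ℝ) ^ 10 ≤ ((r : ℝ) ^ 2) ^ 10 :=
      pow_le_pow_left₀ (by positivity) (by push_cast; nlinarith) _
    have b2 := log_le_log (x := 1 + c) (y := ((r : ℝ) ^ 2) ^ 10) (by linarith) (by linarith)
    rw [← pow_mul, log_pow] at b2
    exact_mod_cast b2
  have r4 : (r : ℝ) ^ 8 ≤ 1024 * log Δ :=
    (pow_le_pow_right₀ (by linarith) (by norm_num)).trans (r1.trans (by linarith))
  have r5 : (r : ℝ) ^ 2 ≤ 1024 * log Δ := (pow_le_pow_right₀ (by linarith) (by norm_num)).trans r4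
  have d1 : 2 ^ 46 * log Δ ≤ Δ := by
    have b1 := pow_div_factorial_le_exp (log Δ) (by linarith) 2
    rw [exp_log hΔp] at b1
    norm_num [Nat.factorial] at b1
    refine (pow_le_pow_iff_left₀ (by linarith) hΔp.le two_ne_zero).1 ?_
    calc _ = 2 ^ 93 * (log Δ ^ 2 / 2) := by ring
      _ ≤ Δ * Δ := mul_le_mul (by linarith) b1 (by positivity) hΔp.le
      _ = _ := by ring
  obtain ⟨j', -, w1, w2⟩ := exists_switch
    (fun j => Δ < (8 * (j + 1) * (8 * r) ^ 2) ^ (2 * (j + 1) + 2)) Δ (by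
      rw [not_lt]
      have b1 : ((8 * (0 + 1) * (8 * r) ^ 2) ^ (2 * (0 + 1) + 2) : ℝ) ≤ Δ :=
        calc _ = 2 ^ 36 * (r : ℝ) ^ 8 := by ring
          _ ≤ _ := by linarith
      exact_mod_cast b1) (by
      refine lt_of_lt_of_le ?_ (Nat.le_self_pow (by omega) _)
      have : 0 < (8 * r) ^ 2 := by positivity
      nlinarith)
  obtain ⟨w, hw⟩ : ∃ w, w = j' + 1 := ⟨_, rfl⟩
  rw [not_lt, ← hw] at w1
  rw [← hw] at w2
  have hw0 : (1 : ℝ) ≤ w := by exact_mod_cast (by omega : 1 ≤ w)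
  have hρ : 0 < (8 * r) ^ 2 := by positivity
  have w3 : (w : ℝ) + 1 ≤ log Δ := by
    have b1 : 2 ^ (2 * w + 2) ≤ Δ := le_trans (Nat.pow_le_pow_left (by nlinarith) _) w1
    have b2 : (2 : ℝ) ^ (2 * w + 2) ≤ Δ := by exact_mod_cast b1
    have b3 := log_le_log (by positivity) b2
    rw [log_pow] at b3
    push_cast at b3
    nlinarith [log_two_gt_d9]
  have w4 : log Δ ≤ 36 * (w * log (log Δ)) := by
    have b1 : (Δ : ℝ) ≤ (8 * (w + 1) * (8 * r) ^ 2) ^ (2 * (w + 1) + 2) := by exact_mod_cast w2.le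
    have b2 := log_le_log hΔp b1
    rw [log_pow] at b2
    push_cast at b2
    have b3 : (69 : ℝ) ^ 4 ≤ log Δ ^ 4 := pow_le_pow_left₀ (by norm_num) hlΔ _
    have b4 : log (8 * ((w : ℝ) + 1) * (8 * r) ^ 2) ≤ log (log Δ ^ 6) := by
      refine log_le_log (by positivity) ?_
      calc _ = 512 * ((w + 1) * (r : ℝ) ^ 2) := by ring
        _ ≤ 512 * (log Δ * (1024 * log Δ)) :=
            mul_le_mul_of_nonneg_left (mul_le_mul w3 r5 (by positivity) (by linarith)) (by norm_num)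
        _ = 524288 * log Δ ^ 2 := by ring
        _ ≤ log Δ ^ 4 * log Δ ^ 2 := mul_le_mul_of_nonneg_right (by linarith) (by positivity)
        _ = _ := by ring
    rw [log_pow] at b4
    push_cast at b4
    calc _ ≤ _ := b2
      _ ≤ (2 * ((w : ℝ) + 1) + 2) * (6 * log (log Δ)) :=
          mul_le_mul_of_nonneg_left b4 (by positivity)
      _ ≤ (6 * w) * (6 * log (log Δ)) := mul_le_mul_of_nonneg_right (by linarith) (by linarith)
      _ = _ := by ring
  obtain ⟨W, hW, v1, v2⟩ := Nat.exists_prime_lt_and_le_two_mul (4 * w * (8 * r) ^ 2)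
    (by have : 0 < w := by omega
        positivity)
  obtain ⟨R, hR⟩ : ∃ R, R = (8 * r) ^ 10 := ⟨_, rfl⟩
  have hR0 : (0 : ℝ) < R := by rw [hR]; positivity
  have hR1 : (R : ℝ) ≤ 2 ^ 40 * c := by
    rw [hR]
    push_cast
    rw [mul_pow]
    linarith
  obtain ⟨m, hm⟩ : ∃ m, m = ⌊log n / (47 * R * (w * log r))⌋₊ + 1 := ⟨_, rfl⟩
  have hd : 0 < 47 * R * (w * log r) := by positivity
  have m1 : log n ≤ m * (47 * R * (w * log r)) := by
    rw [← div_le_iff₀ hd, hm]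
    push_cast
    exact (Nat.lt_floor_add_one _).le
  have m2 : (m : ℝ) ≤ log n / (47 * R * (w * log r)) + 1 := by
    rw [hm]
    push_cast
    linarith [Nat.floor_le (div_nonneg hln hd.le)]
  have hS := H3.sys_mix n w r m W (by omega) (by omega) (by omega) hW v1 (by linarith)
    (le_pow_of_log (by omega) (Nat.one_le_pow _ _ (by omega)) (by
      rw [← hR]
      push_cast
      rw [log_pow]
      linarith))
  have p1 : W ^ (2 * w + 2) ≤ Δ :=
    le_trans (Nat.pow_le_pow_left (v2.trans (le_of_eq (by ring))) _) w1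
  have p2 : 16 * (8 * r) ^ 2 ≤ W ^ (2 * w + 2) := by
    have b1 : 4 * (8 * r) ^ 2 ≤ W := by nlinarith
    calc 16 * (8 * r) ^ 2 ≤ W ^ 2 := by nlinarith
      _ ≤ _ := Nat.pow_le_pow_right (by omega) (by omega)
  rw [← hR] at hS
  generalize W ^ (2 * w + 2) = P at hS p1 p2
  generalize (8 * r) ^ 2 = ρ at hS p2 hρ
  have p3 : 0 < P / (16 * ρ) := Nat.div_pos p2 (by omega)
  have p4 := Nat.div_mul_le_self P (16 * ρ)
  have p5 := Nat.lt_div_mul_add (a := P) (b := 16 * ρ) (by omega)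
  generalize P / (16 * ρ) = t at hS p3 p4 p5
  refine ⟨_, _, _, Nat.mul_pos hρ p3, hS, ?_⟩
  have p6 := div_add_one_mul_le (Δ := Δ) (g := ρ * t) (by nlinarith)
  have p7 : P ≤ 32 * (ρ * t) := by nlinarith
  have p8 : Δ * (64 * R * m * 2) + (Δ / (ρ * t) + 1) * (64 * R * m * (2 * P)) ≤
      8320 * Δ * (R * m) := by
    generalize Δ / (ρ * t) + 1 = u at p6
    have : u * P ≤ 64 * Δ := by nlinarith
    calc _ = 128 * (R * m) * (Δ + u * P) := by ring
      _ ≤ 128 * (R * m) * (Δ + 64 * Δ) := Nat.mul_le_mul_left _ (by omega)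
      _ = _ := by ring
  have hl1 : 0 < log (1 + c) := log_pos (by linarith)
  have p9 : (R : ℝ) * m ≤ 20 * (c * (log (log Δ) / log (1 + c))) + 2 ^ 40 * c := by
    have b1 : R * (log n / (47 * R * (w * log r))) ≤ 20 * (c * (log (log Δ) / log (1 + c))) := by
      rw [mul_div_assoc', mul_div_assoc', mul_div_assoc', div_le_div_iff₀ hd hl1, hcn]
      calc _ = R * c * (log Δ * log (1 + c)) := by ring
        _ ≤ R * c * (36 * (w * log (log Δ)) * (20 * log r)) :=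
            mul_le_mul_of_nonneg_left (mul_le_mul w4 r3 hl1.le (by positivity)) (by positivity)
        _ = 720 * (R * c * w * log (log Δ) * log r) := by ring
        _ ≤ 940 * (R * c * w * log (log Δ) * log r) :=
            mul_le_mul_of_nonneg_right (by norm_num) (by positivity)
        _ = _ := by ring
    have b2 := mul_le_mul_of_nonneg_left m2 hR0.le
    linarith
  have q1 : ((Δ * (64 * R * m * 2) + (Δ / (ρ * t) + 1) * (64 * R * m * (2 * P)) : ℕ) : ℝ) ≤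
      8320 * Δ * (R * m) := by exact_mod_cast p8
  exact q1.trans (mul_le_mul_of_nonneg_left p9 (by positivity))

variable {n : ℕ} (G : SimpleGraph (Fin n)) [DecidableRel G.Adj] {Δ : ℕ}

lemma up_new (hΔ : ∀ v, G.degree v ≤ Δ) (h : 2 ^ 100 ≤ Δ) (hn : Δ < n)
    (hc : log n / log Δ ≤ log Δ) :
    ∃ k : ℕ, Cov G (fun u v => u ≠ v ∧ ¬G.Adj u v) k ∧ (k : ℝ) ≤ 10 ^ 16 * Δ *
      (log n / log Δ * (1 + log (log Δ) / log (1 + log n / log Δ))) := by
  obtain ⟨hlΔ, hll⟩ := log_big h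
  obtain ⟨N, l, g₁, b₁, s1, s2, s3, s4, s5⟩ := sys_short h
  obtain ⟨g, a, b, t1, t2, t3⟩ := sys_long h hn hc
  have hΔ0 : (2 : ℝ) ^ 100 ≤ Δ := by exact_mod_cast h
  have hn' : (Δ : ℝ) < n := by exact_mod_cast hn
  have hΔp : (0 : ℝ) < Δ := lt_of_lt_of_le (by positivity) hΔ0
  have hq : 1 ≤ log n / log Δ := (one_le_div (by linarith)).2 (log_le_log hΔp hn'.le)
  have hn2 : log n ≤ log Δ ^ 2 := by
    rw [div_le_iff₀ (by linarith)] at hc
    linarith
  obtain ⟨Λ, hΛ⟩ : ∃ Λ, Λ = Nat.log 2 n + 1 := ⟨_, rfl⟩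
  have a1 : n ≤ 2 ^ Λ := hΛ ▸ (Nat.lt_pow_succ_log_self (by norm_num) _).le
  have a2 : (Λ : ℝ) ≤ 2 * log Δ ^ 2 := by
    rw [hΛ]
    push_cast
    nlinarith [natLog_le n (by omega)]
  have a3 : 100 ≤ Λ := by
    by_contra hcon
    have : 2 ^ Λ ≤ 2 ^ 100 := Nat.pow_le_pow_right (by norm_num) (by omega)
    omega
  have a3' : (100 : ℝ) ≤ Λ := by exact_mod_cast a3
  obtain ⟨L, hL⟩ : ∃ L, L = (Nat.log 2 Λ + 1) * 2 := ⟨_, rfl⟩
  have a4 : Λ ^ 2 ≤ 2 ^ L := by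
    rw [hL, pow_mul]
    exact Nat.pow_le_pow_left (Nat.lt_pow_succ_log_self (by norm_num) _).le _
  have a5 : L ≤ 2 * Λ := by
    have := Nat.log_lt_self 2 (x := Λ) (by omega)
    omega
  have a6 : (L : ℝ) ≤ 11 * log (log Δ) := by
    have b1 := natLog_le Λ (by omega)
    have b2 := log_le_log (by linarith) a2
    rw [log_mul (by norm_num) (by positivity), log_pow] at b2
    rw [hL]
    push_cast at b2 ⊢
    linarith [log_two_lt_d9]
  obtain ⟨θ, hθ⟩ : ∃ θ, θ = Δ / 2 ^ L + 1 := ⟨_, rfl⟩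
  have a7 : Δ ≤ θ * 2 ^ L := by
    have := Nat.lt_div_mul_add (a := Δ) (b := 2 ^ L) (by positivity)
    rw [hθ, add_mul]
    omega
  have a8 : θ * Λ ^ 2 ≤ Δ + Λ ^ 2 := by
    have b1 := Nat.div_mul_le_self Δ (2 ^ L)
    have b2 := Nat.mul_le_mul_left (Δ / 2 ^ L) a4
    rw [hθ, add_mul]
    omega
  have a9 : Λ ^ 2 ≤ 96 * Δ := by
    have b1 := pow_div_factorial_le_exp (log Δ) (by linarith) 4
    rw [exp_log hΔp] at b1
    norm_num [Nat.factorial] at b1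
    have b2 : (Λ : ℝ) ^ 2 ≤ (2 * log Δ ^ 2) ^ 2 := pow_le_pow_left₀ (by positivity) a2 _
    have b3 : (Λ : ℝ) ^ 2 ≤ 96 * Δ := by linarith
    exact_mod_cast b3
  have hτ : log (n * (3 * Δ * (2 ^ L : ℕ) + 1)) + 1 ≤ (5 * Λ : ℕ) := by
    have b1 : n * (3 * Δ * 2 ^ L + 1) ≤ 2 ^ (4 * Λ + 2) := by
      have c1 : Δ * 2 ^ L ≤ 2 ^ Λ * 2 ^ (2 * Λ) :=
        Nat.mul_le_mul (by omega) (Nat.pow_le_pow_right (by norm_num) a5)
      have c2 : 0 < 2 ^ Λ * 2 ^ (2 * Λ) := by positivity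
      calc _ ≤ 2 ^ Λ * (4 * (2 ^ Λ * 2 ^ (2 * Λ))) := Nat.mul_le_mul a1 (by rw [mul_assoc]; omega)
        _ = _ := by ring
    have b2 : (n : ℝ) * (3 * Δ * (2 ^ L : ℕ) + 1) ≤ 2 ^ (4 * Λ + 2) := by exact_mod_cast b1
    have b3 := log_le_log (mul_pos (by linarith) (by positivity)) b2
    rw [log_pow] at b3
    have b4 : ((4 * Λ + 2 : ℕ) : ℝ) * log 2 ≤ (4 * Λ + 2 : ℕ) * 1 :=
      mul_le_mul_of_nonneg_left (by linarith [log_two_lt_d9]) (by positivity)
    refine (add_le_add (b3.trans b4) le_rfl).trans ?_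
    push_cast
    linarith
  refine ⟨_, cov_new G hΔ (by omega) L Λ (5 * Λ) θ a7 hτ a1 N l g₁ 2 b₁ s1 s2 s3 g a b t1 t2, ?_⟩
  have q1 : (3 * Δ * (L + 2) + 2 * Δ * L) + ((2 * (5 * Λ) * θ + 1) * Λ +
      4 * (5 * Λ + θ) * (Λ * 2)) + l * (Δ * 2 + b₁) ≤ Δ * (5 * L + 26 * l + 6000) := by
    have b1 : l * (Δ * 2 + b₁) ≤ l * (26 * Δ) := Nat.mul_le_mul_left _ (by omega)
    have b2 : Λ ≤ Λ ^ 2 := Nat.le_self_pow (by norm_num) _
    have b3 := Nat.mul_le_mul_left θ b2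
    have e : (3 * Δ * (L + 2) + 2 * Δ * L) + ((2 * (5 * Λ) * θ + 1) * Λ +
      4 * (5 * Λ + θ) * (Λ * 2)) =
        5 * (Δ * L) + 6 * Δ + 10 * (θ * Λ ^ 2) + Λ + 40 * Λ ^ 2 + 8 * (θ * Λ) := by ring
    have e' : Δ * (5 * L + 26 * l + 6000) = 5 * (Δ * L) + l * (26 * Δ) + 6000 * Δ := by ring
    rw [e, e']
    omega
  rw [← add_assoc, Nat.cast_add]
  refine (add_le_add (Nat.cast_le.2 q1) t3).trans ?_
  rw [mul_add (log n / log Δ), mul_one]
  generalize log n / log Δ = c at hq ⊢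
  have hl1 : 0 < log (1 + c) := log_pos (by linarith)
  have q2 : log (log Δ) ≤ c * (log (log Δ) / log (1 + c)) := by
    rw [mul_div_assoc', le_div_iff₀ hl1, mul_comm]
    refine mul_le_mul_of_nonneg_right ?_ (by linarith)
    linarith [log_le_sub_one_of_pos (show 0 < 1 + c by linarith)]
  generalize c * (log (log Δ) / log (1 + c)) = X at q2 ⊢
  push_cast
  have q3 : 5 * (L : ℝ) + 26 * l + 6000 + 8320 * (20 * X + 2 ^ 40 * c) ≤ 10 ^ 16 * (c + X) := by
    linarith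
  have q4 := mul_le_mul_of_nonneg_left q3 hΔp.le
  linarith

theorem upper'' (hΔ : ∀ v, G.degree v ≤ Δ) (h2 : 2 ≤ Δ) (hn : Δ < n) :
    ∃ k : ℕ, Cov G (fun u v => u ≠ v ∧ ¬G.Adj u v) k ∧ (k : ℝ) ≤ 10 ^ 16 * Δ *
      min (1 + log (n / Δ)) (log n / log Δ * (1 + log (log Δ) / log (1 + log n / log Δ))) := by
  have hΔ0 : (2 : ℝ) ≤ Δ := by exact_mod_cast h2
  have hn' : (Δ : ℝ) < n := by exact_mod_cast hn
  have hl2 := log_two_gt_d9
  have hlΔ : log 2 ≤ log Δ := log_le_log (by norm_num) hΔ0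
  have hq : 1 ≤ log n / log Δ := (one_le_div (by linarith)).2 (log_le_log (by linarith) hn'.le)
  rcases le_total (1 + log (n / Δ))
    (log n / log Δ * (1 + log (log Δ) / log (1 + log n / log Δ))) with hc | hc
  · obtain ⟨k, k1, k2⟩ := up_small G hΔ h2 hn
    rw [min_eq_left hc]
    have : 0 ≤ log ((n : ℝ) / Δ) := log_nonneg ((one_le_div (by linarith)).2 hn'.le)
    exact ⟨k, k1, k2.trans (by nlinarith)⟩
  rw [min_eq_right hc]
  by_cases hb : 2 ^ 100 ≤ Δ ∧ log n / log Δ ≤ log Δ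
  · exact up_new G hΔ hb.1 hn hb.2
  obtain ⟨k, k1, k2⟩ := H3.upper' G hΔ h2 hn
  refine ⟨k, k1, k2.trans ?_⟩
  have b1 : log (min (Δ : ℝ) (n / Δ)) ≤ log Δ :=
    log_le_log (lt_min (by linarith) (div_pos (by linarith) (by linarith))) (min_le_left _ _)
  have b2 : log Δ ≤ 70 * (log n / log Δ) := by
    rcases not_and_or.1 hb with h | h
    · have c1 : (Δ : ℝ) ≤ 2 ^ 100 := by exact_mod_cast (not_le.1 h).le
      have c2 := log_le_log (by linarith) c1
      rw [log_pow] at c2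
      push_cast at c2
      linarith [log_two_lt_d9]
    · linarith [not_le.1 h]
  generalize log n / log Δ = c at hq b2 ⊢
  have b3 : log 2 ≤ log (1 + c) := log_le_log (by norm_num) (by linarith)
  have b4 : -(2 / 3) ≤ log (log Δ) / log (1 + c) := by
    rw [le_div_iff₀ (by linarith)]
    have e1 := one_sub_inv_le_log_of_pos (x := log Δ) (by linarith)
    have e2 : (log Δ)⁻¹ ≤ 29 / 20 := by
      rw [inv_le_comm₀ (by linarith) (by norm_num)]
      linarith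
    linarith
  have b5 : c * (1 / 3) ≤ c * (1 + log (log Δ) / log (1 + c)) :=
    mul_le_mul_of_nonneg_left (by linarith) (by linarith)
  have b6 : 1300000 * (c + log (min (Δ : ℝ) (n / Δ))) ≤
      10 ^ 16 * (c * (1 + log (log Δ) / log (1 + c))) := by linarith
  have b7 := mul_le_mul_of_nonneg_left b6 (show (0 : ℝ) ≤ Δ by linarith)
  linarith

end Pool.Agent.MP_a7b5fd_co.H11
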